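import Mathlib
import Pool.Agent.R291.RMW.Z4

set_option autoImplicit false

/-!
# The least `m` in `N = q + c m ^ k` in random models of the primes

For EVERY sequential random model of the primes (the integers are decided one after the other, only
integers coprime to a fixed `Q` can be chosen, and the conditional probability of choosing `n + 1`
(coprime to `Q`) given the past is asymptotic to `(Q / φ(Q)) / log n`; no independence is assumed; for
`Q = 1` Cramér's model and the Hawkins random sieve are examples) and all `c, k ≥ 1` we prove that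
almost surely ALL large `N` without a common factor with `c` and `Q` are of the form `q + c m ^ k`
with `q` in the random set, and we determine the size of the least possible `m ≥ 1` with the exact
constant, in every residue class modulo `Q`.
-/

open MeasureTheory Filter
open scoped Topology

namespace Pool.Agent.Results.MP_83819a_nt.LeastTermRandomModels

/-- the number of the residues `a` mod `Q` such that `N - c a ^ k` is coprime to `Q`, divided by `φ(Q)` -/
noncomputable def s (Q c k N : ℕ) : ℝ :=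
  ((Finset.range Q).filter (fun a : ℕ => Int.gcd ((N : ℤ) - c * (a : ℤ) ^ k) Q = 1)).card / (Nat.totient Q : ℝ)

end Pool.Agent.Results.MP_83819a_nt.LeastTermRandomModels

open Pool.Agent.Results.MP_83819a_nt.LeastTermRandomModels Pool.Agent.R528.RM Pool.Agent.R291.RMW

/-- Let `A n` be the event that `n` belongs to a random set `S` adapted to a filtration `ℱ`, let
`Q ≥ 1`, let no integer which is not coprime to `Q` be chosen, and let the conditional probability of
`A (n + 1)` given `ℱ n`, times `log n`, tend to `Q / φ(Q)` along the `n` with `n + 1` coprime to `Q`,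
almost surely.  Let `c, k ≥ 1`.
(0) `s(N) > 0` for all `N` with `gcd (N, c, Q) = 1`.
(1) Almost surely, for every `ε > 0` and all large `N` with `gcd (N, c, Q) = 1` there are `m ≥ 1` and
`q` in `S` with `N = q + c m ^ k` and `m ≤ (1 + ε) (log N)² / s(N)`.
(2) Almost surely, for every `r` with `gcd (r, c, Q) = 1`, every `ε > 0` and all large `x` there is
`N ≤ x` with `x ≤ 8 Q N`, congruent to `r` mod `Q`, such that `N ≠ q + c m ^ k` for all `q` in `S` and
all `1 ≤ m ≤ (1 - ε) (log x)² / s(r)`. -/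
theorem Pool.Agent.Results.MP_83819a_nt.LeastTermRandomModels.result
    {Ω : Type} [mΩ : MeasurableSpace Ω] (μ : Measure Ω) [IsProbabilityMeasure μ]
    (ℱ : Filtration ℕ mΩ) (A : ℕ → Set Ω) (hA : ∀ n, MeasurableSet[ℱ n] (A n))
    (Q : ℕ) (hQ : 0 < Q) (hcop : ∀ n, ¬ Nat.Coprime n Q → A n = ∅)
    (hd : ∀ᵐ ω ∂μ, Tendsto (fun n : ℕ =>
      (μ[(A (n + 1)).indicator (fun _ => (1 : ℝ)) | ℱ n]) ω * Real.log n)
      (atTop ⊓ 𝓟 {n : ℕ | Nat.Coprime (n + 1) Q}) (𝓝 ((Q : ℝ) / Nat.totient Q)))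
    (c k : ℕ) (hc : 0 < c) (hk : 0 < k) :
    (∀ N : ℕ, Nat.gcd N (Nat.gcd c Q) = 1 → 0 < s Q c k N) ∧
    (∀ᵐ ω ∂μ, ∀ ε : ℝ, 0 < ε → ∀ᶠ N : ℕ in atTop, Nat.gcd N (Nat.gcd c Q) = 1 → ∃ m q : ℕ,
      1 ≤ m ∧ ω ∈ A q ∧ N = q + c * m ^ k ∧ (m : ℝ) ≤ (1 + ε) * (Real.log N ^ 2 / s Q c k N)) ∧
    (∀ᵐ ω ∂μ, ∀ r : ℕ, Nat.gcd r (Nat.gcd c Q) = 1 → ∀ ε : ℝ, 0 < ε → ∀ᶠ x : ℕ in atTop, ∃ N : ℕ,
      N ≤ x ∧ x ≤ 8 * Q * N ∧ N % Q = r % Q ∧ ∀ m q : ℕ, 1 ≤ m → ω ∈ A q →
        (m : ℝ) ≤ (1 - ε) * (Real.log x ^ 2 / s Q c k r) → N ≠ q + c * m ^ k) := by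
  have hprof := Pool.Agent.R528.RM.dens_profile (μ := μ) (ℱ := ℱ) hA Q hQ hcop hd
  have hR := pk_rep hQ hc hk
  refine ⟨fun N hN => pk_pos hQ hk hN, ?_, ?_⟩
  · filter_upwards [repD_upper_all (μ := μ) (ℱ := ℱ) hA hQ hprof hR] with ω hω ε hε
    filter_upwards [hω ε hε] with N hN hs
    obtain ⟨m, m1, m2, m3, m4⟩ := hN (pk_pos hQ hk hs)
    have m2' : c * m ^ k < N := m2
    refine ⟨m, N - c * m ^ k, m1, m4, by omega, m3.trans (le_of_eq ?_)⟩
    have e1 : s Q c k N = sgD Q (Cpk Q c k) N := rfl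
    rw [e1]
    ring
  · filter_upwards [repD_lower_all (μ := μ) (ℱ := ℱ) hA hQ hprof hR] with ω hω r hr ε hε
    filter_upwards [hω r (pk_pos hQ hk hr) ε hε] with x ⟨N, N1, N2, N3, N4⟩
    refine ⟨N, N1, N3, N2, fun m q h1 h2 h3 h4 => ?_⟩
    have e1 : s Q c k r = sgD Q (Cpk Q c k) r := rfl
    have h5 : (m : ℝ) ≤ (1 - ε) * (1 / sgD Q (Cpk Q c k) r) * Real.log x ^ 2 := by
      refine h3.trans (le_of_eq ?_)
      rw [e1]
      ring
    obtain ⟨h6, h7⟩ := N4 m h1 h5
    have h8 : q = N - c * m ^ k := by omega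
    rw [h8] at h2
    exact h7 h2
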