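import Pool.Agent.R121.LP

set_option autoImplicit false

/-!
# Almost all integers as the square of a very small integer of a given residue class plus an almost prime
-/

namespace Pool.Agent.Results.MP_83819a_nt.SmallSquaresInClasses

open Finset
open Pool.Agent

open Classical in
/-- the number of the `1 ≤ j ≤ T` such that `n - (a j + r) ^ 2` is an integer `N ≥ 2` with at most `k` prime factors
(counted with multiplicity), all of them at least `w` -/
noncomputable def representations (a r n k : ℕ) (w T : ℝ) : ℕ :=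
  ((Icc 1 ⌊T⌋₊).filter (fun j : ℕ => ∃ N : ℕ, 2 ≤ N ∧ n = N + (a * j + r) ^ 2 ∧
    N.primeFactorsList.length ≤ k ∧ ∀ p : ℕ, p.Prime → p ∣ N → w ≤ p)).card

/-- the polynomial -/
noncomputable def f (a r : ℕ) : Polynomial ℤ := (Polynomial.C (a : ℤ) * Polynomial.X + Polynomial.C (r : ℤ)) ^ 2

lemma f_eval (a r : ℕ) (x : ℤ) : (f a r).eval x = ((a : ℤ) * x + r) ^ 2 := by
  unfold f
  rw [Polynomial.eval_pow, Polynomial.eval_add, Polynomial.eval_mul, Polynomial.eval_C, Polynomial.eval_X,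
    Polynomial.eval_C]

lemma cnt_le (a r n k : ℕ) (w T : ℝ) :
    R490.LGb.cnt (fun _ => 1) (fun j => -R121.LP.ev (f a r) j) k ⌊T⌋₊ n w ≤ representations a r n k w T := by
  classical
  unfold R490.LGb.cnt representations
  apply card_le_card
  intro j hj
  rw [mem_filter] at hj ⊢
  obtain ⟨h1, h2, h3, h4⟩ := hj
  refine ⟨h1, ?_⟩
  obtain ⟨N, hN⟩ : ∃ N : ℕ, (N : ℤ) = ((1 : ℕ) : ℤ) * n + -R121.LP.ev (f a r) j :=
    ⟨(((1 : ℕ) : ℤ) * n + -R121.LP.ev (f a r) j).toNat, Int.toNat_of_nonneg (by linarith)⟩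
  rw [← hN] at h2 h3 h4
  rw [Int.toNat_natCast] at h3
  refine ⟨N, by exact_mod_cast h2, ?_, h3, ?_⟩
  · have h5 : R121.LP.ev (f a r) j = ((a : ℤ) * j + r) ^ 2 := f_eval a r j
    rw [h5] at hN
    have : (n : ℤ) = N + ((a : ℤ) * j + r) ^ 2 := by
      rw [hN]
      push_cast
      ring
    exact_mod_cast this
  · intro p hp hd
    exact h4 p hp (by exact_mod_cast hd)

/-- **Almost all integers `n` without a local obstruction are the sum of an almost prime and of the square of a very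
small integer of the class `r (mod a)`.** -/
theorem result (a r : ℕ) (ha : 1 ≤ a) (θ ε : ℝ) (k : ℕ) (hθ : 0 < θ) (hθ1 : θ ≤ 1)
    (hk : 1 / 8 + 25 / (12 * θ) < k) (hε : 0 < ε) :
    ∃ κ Λ : ℝ, 0 < κ ∧ 0 < Λ ∧ ∀ l : ℝ, Λ ≤ l → ∃ X₀ : ℕ, ∀ X : ℕ, X₀ ≤ X → ∀ Z L : ℕ,
      (X : ℝ) ^ θ ≤ L → Z + L ≤ X →
      (({n : ℕ | n ∈ Ioc Z (Z + L) ∧ IsCoprime ((n : ℤ) - (r : ℤ) ^ 2) (a : ℤ) ∧
        (representations a r n k ((X : ℝ) ^ (θ / 10)) (l * Real.log X) : ℝ) < κ * l} : Set ℕ).ncard : ℝ) ≤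
        ε * L := by
  classical
  have hdeg : (f a r).natDegree = 2 := by
    unfold f
    rw [Polynomial.natDegree_pow, Polynomial.natDegree_linear (by omega)]
  have hadm : ∀ n : ℕ, IsCoprime ((n : ℤ) - (r : ℤ) ^ 2) (a : ℤ) → R121.LP.AdmF (f a r) n := by
    intro n hn p hp
    by_contra hno
    push Not at hno
    have hpi : Prime (p : ℤ) := Nat.prime_iff_prime_int.1 hp
    have key : ∀ m : ℕ, (p : ℤ) ∣ (n : ℤ) - ((a : ℤ) * m + r) ^ 2 := by
      intro m
      have := hno m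
      rwa [f_eval] at this
    have k0 := key 0
    rw [Nat.cast_zero, mul_zero, zero_add] at k0
    by_cases hpa : (p : ℤ) ∣ (a : ℤ)
    · obtain ⟨u, v, huv⟩ := hn
      have h5 : (p : ℤ) ∣ 1 := by
        rw [← huv]
        exact dvd_add (k0.mul_left _) (hpa.mul_left _)
      exact hpi.not_dvd_one h5
    · -- two values of `m` whose squares differ modulo `p`
      have k1 := key 1
      have k2 := key 2
      push_cast at k1 k2
      have e1 : (p : ℤ) ∣ (a : ℤ) * (a + 2 * r) := by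
        have := dvd_sub k0 k1
        have e : ((n : ℤ) - (r : ℤ) ^ 2) - ((n : ℤ) - ((a : ℤ) * 1 + r) ^ 2) = (a : ℤ) * (a + 2 * r) := by ring
        rwa [e] at this
      have e2 : (p : ℤ) ∣ (a : ℤ) * (3 * a + 2 * r) := by
        have := dvd_sub k1 k2
        have e : ((n : ℤ) - ((a : ℤ) * 1 + r) ^ 2) - ((n : ℤ) - ((a : ℤ) * 2 + r) ^ 2) =
            (a : ℤ) * (3 * a + 2 * r) := by ring
        rwa [e] at this
      have e3 : (p : ℤ) ∣ (a : ℤ) + 2 * r := (hpi.dvd_or_dvd e1).resolve_left hpa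
      have e4 : (p : ℤ) ∣ 3 * (a : ℤ) + 2 * r := (hpi.dvd_or_dvd e2).resolve_left hpa
      have e5 : (p : ℤ) ∣ 2 * (a : ℤ) := by
        have := dvd_sub e4 e3
        have e : (3 * (a : ℤ) + 2 * r) - ((a : ℤ) + 2 * r) = 2 * (a : ℤ) := by ring
        rwa [e] at this
      have e6 : (p : ℤ) ∣ 2 := (hpi.dvd_or_dvd e5).resolve_right hpa
      have e7 : (p : ℤ) ∣ (a : ℤ) := by
        have := dvd_sub e3 (e6.mul_right (r : ℤ))
        have e : ((a : ℤ) + 2 * r) - 2 * (r : ℤ) = (a : ℤ) := by ring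
        rwa [e] at this
      exact hpa e7
  obtain ⟨κ, Λ, hκ, hΛ, h⟩ := R121.LP.mainP (f a r) (by rw [hdeg]; norm_num)
    (by
      intro j j' _ _ hne h
      rw [f_eval, f_eval] at h
      have h2 : (a * j + r) ^ 2 = (a * j' + r) ^ 2 := by exact_mod_cast h
      have h3 : a * j + r = a * j' + r := Nat.pow_left_injective (by norm_num) h2
      have h4 : a * j = a * j' := by omega
      exact hne (Nat.eq_of_mul_eq_mul_left (by omega) h4)) θ ε k hθ hθ1 hk hε
  refine ⟨κ, Λ, hκ, hΛ, ?_⟩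
  intro l hl
  obtain ⟨X₀, hX₀⟩ := Filter.eventually_atTop.1 (h l hl)
  refine ⟨X₀, ?_⟩
  intro X hX Z L hL hZ
  have h3 := hX₀ X hX Z L hL hZ
  refine le_trans ?_ h3
  rw [← Set.ncard_coe_finset]
  have hsub : ({n : ℕ | n ∈ Ioc Z (Z + L) ∧ IsCoprime ((n : ℤ) - (r : ℤ) ^ 2) (a : ℤ) ∧
        (representations a r n k ((X : ℝ) ^ (θ / 10)) (l * Real.log X) : ℝ) < κ * l} : Set ℕ) ⊆
      (((Ioc Z (Z + L)).filter (fun n => R121.LP.AdmF (f a r) n ∧
        (R490.LGb.cnt (fun _ => 1) (fun j => -R121.LP.ev (f a r) j) k ⌊l * Real.log X⌋₊ n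
          ((X : ℝ) ^ (θ / 10)) : ℝ) < κ * l)) : Finset ℕ) := by
    intro n hn
    obtain ⟨a1, ao, a2⟩ := hn
    rw [mem_coe, mem_filter]
    refine ⟨a1, hadm n ao, ?_⟩
    have a3 : (R490.LGb.cnt (fun _ => 1) (fun j => -R121.LP.ev (f a r) j) k ⌊l * Real.log X⌋₊ n
        ((X : ℝ) ^ (θ / 10)) : ℝ) ≤
        representations a r n k ((X : ℝ) ^ (θ / 10)) (l * Real.log X) := by exact_mod_cast cnt_le a r n k _ _
    linarith
  have h4 := Set.ncard_le_ncard hsub (Finset.finite_toSet _)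
  exact_mod_cast h4

end Pool.Agent.Results.MP_83819a_nt.SmallSquaresInClasses
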